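import Mathlib
import Pool.Agent.H8EM.K
import Pool.Agent.Y1.CT.Main

/-!
# The rational K-groups of products of abelian varieties of almost all slope types of all CM fields with
arbitrary smooth varieties, over finite fields

Let `K i` (`i` in a finite set) be CM fields of degree `2 g i`. Nothing is assumed about their Galois
groups. They are pairwise independent: for `i ≠ k` and all complex embeddings `φ` of `K i` and `ψ` of
`K k` some automorphism of `ℂ` is the identity on `φ (K i)` and the complex conjugation on `ψ (K k)`
(this is no condition if there is only one field). We fix an isomorphism `ν` of the algebraic closure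
of `ℚ_p` with `ℂ`; it defines a `p`-adic valuation of `ℂ`, with the value one at `p`. Let `M i` be a
function with nonzero integral values, all of which divide `n i`, on the complex embeddings of
`K i`, invariant under complex conjugation. A CM type `Φ i` of `K i` (a choice of one element out of
each complex conjugate pair of embeddings; there are `2 ^ (g i)` types), `M i` and a real number
`κ ≠ 0` prescribe the slopes `(a + κ M) / 2` (at the embeddings in `Φ i`) and `(a - κ M) / 2` (outside
of `Φ i`) of a Weil number for `p ^ a` in `K i` (`HasType`). The case `M = 1`, `κ = a` is the case of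
ordinary abelian varieties.

There are `2 ^ (∑ i, g i)` families of CM types `Φ i` of the fields `K i`. A family is exceptional
(`exceptionalFamilies ν K M`) if the following statement (`Holds`) is false for it. Let `π i` be Weil
numbers for `q = p ^ a` that generate the fields `K i` and have the slope types `Φ i`, `M i`, and let
`f i` be monic polynomials whose complex roots are conjugates of `π i` (`IsPolyOf`), for instance the
characteristic polynomials of Frobenius of the abelian varieties in the isogeny classes of the `π i`
over the field with `q` elements. Let `A` be an abelian variety over the field with `Q = q ^ s`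
elements which is isogenous to a product of powers of abelian varieties coming from the field with
`q` elements, with characteristic polynomials `f i`. Let `U` be **any** smooth variety over the field
with `Q` elements such that the Frobenius endomorphism of `U` satisfies on the motivic cohomology groups
`H^i(A × U, ℚ(j))` nonzero polynomials with rational coefficients whose roots are unrelated to the
fields `K i` (`RationalRoots T (Unrelated K)`). This is so if `U` is projective, its Chow motive is
finite-dimensional in the sense of Kimura (for instance, if `U` is dominated by a product of curves)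
and the Frobenius eigenvalues on the cohomology of `U` are unrelated to the fields `K i`: then a
power of the characteristic polynomial of Frobenius is zero on the motive.

A complex number `ρ ≠ 0` is unrelated to the fields `K i` (`Unrelated`) if a function `n` on the
complex embeddings of `K i` with `n (conj φ) = - n φ` which is invariant under all automorphisms of
`ℂ` that fix a power of `ρ` is zero. This is so if for each embedding `ψ` of `K i` some automorphism
which fixes a power of `ρ` is the complex conjugation on `ψ (K i)`: for instance, if a power of `ρ`
lies in a field linearly disjoint from the normal closures of the `K i`, or in a totally real field.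

By Bloch, `K_n(X) ⊗ ℚ` is the direct sum of the groups `H^(2 j - n)(X, ℚ(j))` for smooth `X` (and
`K'_n(X) = K_n(X)`). The theorem: for all `n ≥ 0` **`K_n(A × U) ⊗ ℚ` has finite dimension if and only if
`K_n(U) ⊗ ℚ` has finite dimension** (`KEquiv`): the rational form of question 1 for `A × U` is equivalent
to the one for `U`. No Tate, Beilinson or Parshin conjecture is assumed.

The framework: the Chow ring and the ring of correspondences of `A`, with rational coefficients, and
the cohomology of `A` (with coefficients in any field of characteristic zero which contains the
Frobenius eigenvalues), with the formal properties and the theorems of Tate on divisors and of Kimura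
on the nilpotence of homologically trivial correspondences (`AbelianData`, `IsAbelian`); the motivic
cohomology groups `H^i(U, ℚ(j))` and `H^i(A × U, ℚ(j))`, with the products with cycles on `A`, the
push-forward from `A × U` to `U`, the operation of the correspondences from `A` to `A` and the Frobenius
endomorphism of `U` (`RelData`, `IsRel`); the Frobenius endomorphism of `A × U` acts as `Q ^ j` in weight
`j` (`IsPure`; Soulé).

The proof: by the library theorems `V1168.UN.exists_classes` and `V1168.EF.exists_classes` of helper68
there are products `D t` of `c t` divisor classes on `A` with a dual system `E t` for the intersection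
pairing such that `m = ∑ D t × (E t)_* m` for all `m` in `H^i(A × U, ℚ(j))`. For `i = 2 j - n` the elements
`(E t)_* m` lie in `H^(2 (j - c t) - n)(U, ℚ(j - c t))`, a summand of the same group `K_n(U) ⊗ ℚ`.

The theorem bounds the number of the exceptional families: it is at most
`2 ^ (∑ i, g i) * ∑ i, C * (n i) ^ 2 * rate (K i) (g i) (q i)`, with an absolute constant `C`. Here
`q i` is any prime factor of `g i` (or `q i = 1`), and `rate K g q` is `(1 + log (2 g)) ^ 16` times
the smaller of the numbers `W (K) / √g` and `√g / q`; the second part of the theorem
(`WeightEstimate`) is `W (K) ≤ N ^ 2 * D ^ (1 / 4)`, where `N` is the number of the CM subfields of `K`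
(with `K`) and `D` is the largest degree of a CM subfield of `K` that is normal over `ℚ` with a
nonabelian Galois group (`D = 1` if there are none). The number `W (K)` is `subfieldWeight K`.
-/

set_option autoImplicit false

namespace Pool.Agent.Results.MP_e17fa799_al.RationalAllCMTypesTimes

open NumberField Module Pool.Agent.H204R3.CM Pool.Agent.H977R3.CM Pool.Agent.TH170
  Pool.Agent.Y1.KN Pool.Agent.Y1.CT Pool.Agent.H8EM

/-- For all `n`, `K_n(A × U) ⊗ ℚ` has finite dimension if and only if `K_n(U) ⊗ ℚ` has, for all abelian
varieties `A` whose Frobenius eigenvalues are powers of conjugates of Weil numbers with the slope types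
`Φ i`, `M i`, and all `U` unrelated to the fields `K i`. -/
def Holds {p : ℕ} [Fact p.Prime] (ν : PadicAlgCl p ≃+* ℂ) {I : Type} (K : I → Type)
    [∀ i, Field (K i)] [∀ i, NumberField (K i)] [∀ i, IsCMField (K i)]
    (M : ∀ i, (K i →+* ℂ) → ℤ) (Φ : ∀ i, Set (K i →+* ℂ)) : Prop :=
  ForAllTypes ν K M (KTimes (Unrelated K)) Φ

/-- The exceptional families of CM types. -/
def exceptionalFamilies {p : ℕ} [Fact p.Prime] (ν : PadicAlgCl p ≃+* ℂ) {I : Type} (K : I → Type)
    [∀ i, Field (K i)] [∀ i, NumberField (K i)] [∀ i, IsCMField (K i)]
    (M : ∀ i, (K i →+* ℂ) → ℤ) : Set (∀ i, Set (K i →+* ℂ)) :=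
  {Φ | (∀ i, IsCMType (Φ i)) ∧ ¬ Holds ν K M Φ}

/-- **`K_n(A × U) ⊗ ℚ` has finite dimension if and only if `K_n(U) ⊗ ℚ` has, for the abelian varieties `A`
of almost all slope types of all CM fields and all unrelated smooth varieties `U`.** -/
theorem result :
    (∃ C : ℝ, 0 ≤ C ∧ ∀ (p : ℕ) [Fact p.Prime] (ν : PadicAlgCl p ≃+* ℂ) (I : Type) [Fintype I]
      (K : I → Type) [∀ i, Field (K i)] [∀ i, NumberField (K i)] [∀ i, IsCMField (K i)]
      (M : ∀ i, (K i →+* ℂ) → ℤ) (n g q : I → ℕ), PairwiseIndep K →
      (∀ i φ, M i (ComplexEmbedding.conjugate φ) = M i φ) → (∀ i, n i ≠ 0) →
      (∀ i φ, M i φ ∣ (n i : ℤ)) → (∀ i, finrank ℚ (K i) = 2 * g i) →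
      (∀ i, q i ∣ g i ∧ (q i = 1 ∨ (q i).Prime)) →
      ((exceptionalFamilies ν K M).ncard : ℝ) ≤
        2 ^ (∑ i, g i) * ∑ i, C * (n i : ℝ) ^ 2 * rate (K i) (g i) (q i)) ∧
    WeightEstimate := by
  obtain ⟨C, hC0, hC⟩ := ncard_of_unrel
  refine ⟨⟨C, hC0, ?_⟩, weight_estimate_holds⟩
  intro p _ ν I _ K _ _ _ M n g q hind hM hn hMn hg hq
  exact hC p ν I K M n g q hind hM hn hMn hg hq _ fun Q f hQ hR => kTimes_unrelated hQ hR

end Pool.Agent.Results.MP_e17fa799_al.RationalAllCMTypesTimes
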