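import Mathlib
import Pool.Agent.H8EM.KBSFrom
import Pool.Agent.V1168.EV.Rel

/-!
# The rational K-groups, for products of arbitrary varieties with
abelian varieties outside of finitely many lines of slope vectors, over finite fields

Let `K i` (`i` in a finite set) be CM fields with pair flips (`PairFlips`): for any two complex
embeddings `φ` of `K i` and `ψ` of `K k` (with `i = k` or not) which are neither equal nor complex
conjugate, some automorphism of `ℂ` is the identity on `φ (K i)` and the complex conjugation on
`ψ (K k)`. We fix an isomorphism `ν` of the algebraic closure of `ℚ_p` with `ℂ`; it defines a `p`-adic
valuation `v` of `ℂ` with `v p = 1`. The slope vector of a Weil number `π` for `p ^ a` in `K i` is the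
function `2 v (φ π) - a` on the complex embeddings `φ` of `K i` (`slopeVector`); it is odd.

Let `π i` be Weil numbers for `q = p ^ a` in `K i` with nonzero slope vectors, and let `f i` be monic
polynomials whose complex roots are conjugates of `π i` (`IsPolyOf`), for instance the characteristic
polynomials of Frobenius of the abelian varieties in the isogeny classes of the `π i` over the field
with `q` elements. Let `A` be an abelian variety over the field with `Q = q ^ s` elements which is
isogenous to a product of powers of abelian varieties coming from the field with `q` elements, with
characteristic polynomials `f i` (`IsAbelian`).

A number `ρ` comes from the finite set `Ω` of complex numbers (`From p Ω`) if it is not zero and a power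
of it is the product of a power of a conjugate of an element of `Ω`, or of `1`, and of a power of `p`.
Let `U` be **any** smooth variety over the field with `Q` elements such that the Frobenius
endomorphism of `U` satisfies on the groups `H^i(A × U, ℚ(j))` nonzero polynomials with
rational coefficients whose roots come from `Ω` (`RationalRoots T (From p Ω)`).

**The theorem: there is a set `E` of at most `|Ω|` lines, each of them in the space of the functions on
the complex embeddings of one of the fields `K i`, such that for all `a`, all `π i` whose slope vectors
are not on the lines in `E`, all `f i`, `s`, `A` and all `U` as above the statement below is true.**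
So for one field `K` and a given `U` all the Weil numbers in `K` are allowed, except those whose slope
vector is a multiple of one of at most `|Ω|` vectors. The result `RationalEveryVarietyTimes` for this problem
is about **one** family of Weil numbers (possibly in infinitely many fields). Here the fields are given,
all the Weil numbers in them are considered at the same time, and `Ω` is any finite set.

By Bloch, `K_n(X) ⊗ ℚ` is the direct sum of the groups `H^(2 j - n)(X, ℚ(j))` for smooth `X` (and
`K'_n(X) = K_n(X)`). The theorem: for all `n ≥ 0` **`K_n(A × U) ⊗ ℚ` has finite dimension if and only if
`K_n(U) ⊗ ℚ` has finite dimension** (`KEquiv`): the rational form of question 1 for `A × U` is equivalent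
to the one for `U`. No Tate, Beilinson or Parshin conjecture is assumed.

The framework: the Chow ring and the ring of correspondences of `A`, with rational coefficients, and
the cohomology of `A` (with coefficients in any field of characteristic zero which contains the
Frobenius eigenvalues), with the formal properties and the theorems of Tate on divisors and of Kimura
on the nilpotence of homologically trivial correspondences (`AbelianData`, `IsAbelian`); the motivic
cohomology groups `H^i(U, ℚ(j))` and `H^i(A × U, ℚ(j))`, with the products with cycles on `A`, the
push-forward from `A × U` to `U`, the operation of the correspondences from `A` to `A` and the Frobenius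
endomorphism of `U` (`RelData`, `IsRel`); the Frobenius endomorphism of `A × U` acts as `Q ^ j` in weight
`j` (`IsPure`; Soulé).

The proof: by the library theorems `V1168.UN.exists_classes` and `V1168.EF.exists_classes` of helper68
there are products `D t` of `c t` divisor classes on `A` with a dual system `E t` for the intersection
pairing such that `m = ∑ D t × (E t)_* m` for all `m` in `H^i(A × U, ℚ(j))`. For `i = 2 j - n` the elements
`(E t)_* m` lie in `H^(2 (j - c t) - n)(U, ℚ(j - c t))`, a summand of the same group `K_n(U) ⊗ ℚ`.

The lines (`V1168.EV.exists_lines_forall` of helper68): if a product of a number `ρ` from `Ω` and of roots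
of the `f i`, no two of them complex conjugate, is a power of `q` up to a root of unity, then the slope
vector of one of the `π i` is on the line of a vector given by an element of `Ω`.
-/

set_option autoImplicit false

namespace Pool.Agent.Results.MP_e17fa799_al.RationalExceptionalSlopeLines

open NumberField Pool.Agent.V1168.EV Pool.Agent.H8EM

/-- **`K_n(A × U) ⊗ ℚ` has finite dimension if and only if `K_n(U) ⊗ ℚ` has, for all `U` with Frobenius
eigenvalues from the finite set `Ω` and all abelian varieties `A` given by Weil numbers in the CM fields
`K i` (with pair flips), with slope vectors outside of at most `|Ω|` lines.** -/
theorem result {p : ℕ} [Fact p.Prime] (ν : PadicAlgCl p ≃+* ℂ) {I : Type} [Finite I]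
    (K : I → Type) [∀ i, Field (K i)] [∀ i, NumberField (K i)] [∀ i, IsCMField (K i)]
    (hK : PairFlips K) (Ω : Finset ℂ) :
    ∃ E : Finset (Σ i, ((K i →+* ℂ) → ℝ)), E.card ≤ Ω.card ∧
      ForAllOutside ν K (fun q f => KTimes (From p Ω) q f) E := by
  obtain ⟨E, hE, h⟩ := exists_lines_forall ν K hK Ω
  exact ⟨E, hE, h _ fun q f hq hR => kTimes_from hq hR⟩

end Pool.Agent.Results.MP_e17fa799_al.RationalExceptionalSlopeLines
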